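import Pool.Agent.W295.PR.Stm

/-!
# PR-LT3
-/
set_option autoImplicit false

namespace Pool.Agent.W202.PR.LT3

open Pool.Agent.W295.PR

theorem lam_one {G : Type} [Group G] [TopologicalSpace G] [IsTopologicalGroup G] {N : Nil G}
    {D : ℕ} {lam : (RR D → G) → Circle} (h : Lam N D lam) : lam 1 = 1 := by
  have h1 := h.mul 1 (one_mem _) 1 (one_mem _)
  rw [mul_one] at h1
  exact left_eq_mul.1 h1

theorem lam_inv {G : Type} [Group G] [TopologicalSpace G] [IsTopologicalGroup G] {N : Nil G}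
    {D : ℕ} {lam : (RR D → G) → Circle} (h : Lam N D lam) {f : RR D → G} (hf : f ∈ PP N D) :
    lam f⁻¹ = (lam f)⁻¹ := by
  have h1 := h.mul f hf f⁻¹ (inv_mem hf)
  rw [mul_inv_cancel, lam_one h] at h1
  exact eq_inv_of_mul_eq_one_right h1.symm

theorem main (h1 : S_LT2) (h2 : S_PPn) (h3 : S_EV) : S_LT3 := by
  intro G _ _ _ N D lam hl r f hf
  have hr := (h2 G N D).2.2.2.1 r
  unfold PP at hf
  induction hf using Subgroup.closure_induction with
  | mem f hf =>
    obtain ⟨e, u, x, v, hu, hx, hv, rfl⟩ := hf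
    have e1 : (fun q => gpp N D e u x v (rho D r q)) = gpp N D (r * e) u x v := by
      funext q
      have := (h3 D e r q q).2.2.2.2.2.2.1
      unfold gpp
      rw [this]
    rw [e1, h1 G N D lam hl (r * e) u hu x hx v hv, h1 G N D lam hl e u hu x hx v hv, ← zpow_mul,
      mul_comm r e]
  | one =>
    have e1 : (fun q => (1 : RR D → G) (rho D r q)) = 1 := rfl
    rw [e1, lam_one hl, one_zpow]
  | mul f g hf hg ihf ihg =>
    have e1 : (fun q => (f * g) (rho D r q))
        = (fun q => f (rho D r q)) * (fun q => g (rho D r q)) := rfl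
    rw [e1, hl.mul _ (hr f hf) _ (hr g hg), ihf, ihg, hl.mul f hf g hg, mul_zpow]
  | inv f hf ihf =>
    have e1 : (fun q => (f⁻¹) (rho D r q)) = (fun q => f (rho D r q))⁻¹ := rfl
    rw [e1, lam_inv hl (hr f hf), ihf, lam_inv hl hf, inv_zpow]

end Pool.Agent.W202.PR.LT3
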